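import Mathlib

open Topology

namespace Pool.Agent.Results.MP_67ce71_gt.NotSRP

/-- `r` is a total preorder. -/
structure IsTotalPre {X : Type} (r : X → X → Prop) : Prop where
  refl : ∀ x, r x x
  trans : ∀ x y z, r x y → r y z → r x z
  total : ∀ x y, r x y ∨ r y x

/-- `U(x) = {y : x ≺ y}`. -/
def upper {X : Type} (r : X → X → Prop) (x : X) : Set X := {y | r x y ∧ ¬ r y x}

/-- `L(x) = {y : y ≺ x}`. -/
def lower {X : Type} (r : X → X → Prop) (x : X) : Set X := {y | r y x ∧ ¬ r x y}

/-- lower semicontinuous preorder: all `U(x)` are open -/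
def LowerSC {X : Type} [TopologicalSpace X] (r : X → X → Prop) : Prop :=
  ∀ x, IsOpen (upper r x)

/-- upper semicontinuous preorder: all `L(x)` are open -/
def UpperSC {X : Type} [TopologicalSpace X] (r : X → X → Prop) : Prop :=
  ∀ x, IsOpen (lower r x)

/-- `u` is a utility representation of `r` -/
def Represents {X : Type} (u : X → ℝ) (r : X → X → Prop) : Prop :=
  ∀ x y, r x y ↔ u x ≤ u y

/-- semicontinuous representability property -/
def SRP (X : Type) [TopologicalSpace X] : Prop :=
  (∀ r : X → X → Prop, IsTotalPre r → LowerSC r →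
    ∃ u : X → ℝ, (∀ a : ℝ, IsOpen {x | a < u x}) ∧ Represents u r) ∧
  (∀ r : X → X → Prop, IsTotalPre r → UpperSC r →
    ∃ u : X → ℝ, (∀ a : ℝ, IsOpen {x | u x < a}) ∧ Represents u r)

/-- continuous representability property -/
def CRP (X : Type) [TopologicalSpace X] : Prop :=
  ∀ r : X → X → Prop, IsTotalPre r → LowerSC r → UpperSC r →
    ∃ u : X → ℝ, Continuous u ∧ Represents u r

/-- hereditary continuous representability property -/
def HCRP (X : Type) [TopologicalSpace X] : Prop :=
  ∀ Y : Set X, Y.Nonempty → CRP Y

/-- A space whose open sets form a chain has CRP. -/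
theorem crp_of_chain (X : Type) [TopologicalSpace X]
    (h : ∀ U V : Set X, IsOpen U → IsOpen V → U ⊆ V ∨ V ⊆ U) : CRP X := by
  intro r hr h1 h2
  have key : ∀ x y, r x y := by
    intro x y
    by_contra hxy
    have hyx : r y x := (hr.total x y).resolve_left hxy
    rcases h (upper r y) (lower r x) (h1 y) (h2 x) with hs | hs
    · have : x ∈ lower r x := hs ⟨hyx, hxy⟩
      exact this.2 (hr.refl x)
    · have : y ∈ upper r y := hs ⟨hyx, hxy⟩
      exact this.2 (hr.refl y)
  exact ⟨fun _ => 0, continuous_const, fun x y => by simp [key x y]⟩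

/-- A space whose open sets form a chain has HCRP. -/
theorem hcrp_of_chain (X : Type) [TopologicalSpace X]
    (h : ∀ U V : Set X, IsOpen U → IsOpen V → U ⊆ V ∨ V ⊆ U) : HCRP X := by
  intro Y _
  apply crp_of_chain
  intro U V hU hV
  obtain ⟨U', hU', rfl⟩ := isOpen_induced_iff.mp hU
  obtain ⟨V', hV', rfl⟩ := isOpen_induced_iff.mp hV
  rcases h U' V' hU' hV' with hs | hs
  · exact Or.inl (Set.preimage_mono hs)
  · exact Or.inr (Set.preimage_mono hs)

/-- The lower order topology of a linear order: generated by the sets `{y : x < y}`. -/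
@[reducible] def lowerOrderTopology (X : Type) [LinearOrder X] : TopologicalSpace X :=
  TopologicalSpace.generateFrom (Set.range fun x : X => Set.Ioi x)

theorem isUpperSet_of_open {X : Type} [LinearOrder X] (U : Set X)
    (hU : IsOpen[lowerOrderTopology X] U) : IsUpperSet U := by
  induction hU with
  | basic s hs =>
    obtain ⟨x, rfl⟩ := hs
    exact isUpperSet_Ioi x
  | univ => exact isUpperSet_univ
  | inter s t _ _ hs ht => exact hs.inter ht
  | sUnion S _ hS => exact isUpperSet_sUnion hS

/-- There is no order embedding of `ω₁` into the reals. -/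
theorem no_utility (u : (Ordinal.omega 1).ToType → ℝ) (hu : ∀ x y, x ≤ y ↔ u x ≤ u y) :
    False := by
  classical
  have hlt : ∀ x y, x < y → u x < u y := by
    intro x y hxy
    rw [← not_le, ← hu, not_le]
    exact hxy
  have hq : ∀ x : (Ordinal.omega 1).ToType, x < Order.succ x →
      ∃ q : ℚ, u x < q ∧ (q : ℝ) < u (Order.succ x) := by
    intro x hx
    exact exists_rat_btwn (hlt _ _ hx)
  choose q hq1 hq2 using hq
  let f : (Ordinal.omega 1).ToType → Option ℚ := fun x =>
    if h : x < Order.succ x then some (q x h) else none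
  have hf : Function.Injective f := by
    have aux : ∀ x y, x < y → f x ≠ f y := by
      intro x y hxy hfxy
      have hx : x < Order.succ x := Order.lt_succ_of_not_isMax (not_isMax_of_lt hxy)
      by_cases hy : y < Order.succ y
      · simp only [f, dif_pos hx, dif_pos hy, Option.some.injEq] at hfxy
        have h1 : (q x hx : ℝ) < q y hy := by
          calc (q x hx : ℝ) < u (Order.succ x) := hq2 x hx
            _ ≤ u y := (hu _ _).mp (Order.succ_le_of_lt hxy)
            _ < q y hy := hq1 y hy
        rw [hfxy] at h1
        exact lt_irrefl _ h1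
      · simp only [f, dif_pos hx, dif_neg hy] at hfxy
        exact Option.some_ne_none _ hfxy
    intro x y hxy
    by_contra hne
    rcases lt_or_gt_of_ne hne with h | h
    · exact aux x y h hxy
    · exact aux y x h hxy.symm
  have hc : Countable (Ordinal.omega 1).ToType := hf.countable
  have h1 : Cardinal.mk (Ordinal.omega 1).ToType ≤ Cardinal.aleph0 := Cardinal.mk_le_aleph0
  rw [Cardinal.mk_toType, Ordinal.card_omega] at h1
  exact absurd h1 (not_le.mpr Cardinal.aleph0_lt_aleph_one)

/-- There is a topological space with the hereditary continuous representability property but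
without the semicontinuous representability property: `ω₁` with its lower order topology.
Moreover every space whose open sets form a chain has HCRP. -/
theorem result :
    (∀ (X : Type) [TopologicalSpace X],
      (∀ U V : Set X, IsOpen U → IsOpen V → U ⊆ V ∨ V ⊆ U) → HCRP X) ∧
    (@HCRP (Ordinal.omega 1).ToType (lowerOrderTopology _) ∧
      ¬ @SRP (Ordinal.omega 1).ToType (lowerOrderTopology _)) ∧
    ¬ (∀ (X : Type) [TopologicalSpace X], HCRP X → SRP X) := by
  have h1 : @HCRP (Ordinal.omega 1).ToType (lowerOrderTopology _) := by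
    let inst := lowerOrderTopology (Ordinal.omega 1).ToType
    apply hcrp_of_chain
    intro U V hU hV
    exact (isUpperSet_of_open U hU).total (isUpperSet_of_open V hV)
  have h2 : ¬ @SRP (Ordinal.omega 1).ToType (lowerOrderTopology _) := by
    let inst := lowerOrderTopology (Ordinal.omega 1).ToType
    intro h
    obtain ⟨u, -, hu⟩ := h.1 (fun x y => x ≤ y)
      ⟨fun x => le_refl x, fun x y z => le_trans, fun x y => le_total x y⟩ (by
        intro x
        have : upper (fun x y : (Ordinal.omega 1).ToType => x ≤ y) x = Set.Ioi x := by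
          ext y
          simp only [upper, Set.mem_ofPred_eq, Set.mem_Ioi, not_le]
          exact ⟨fun h => h.2, fun h => ⟨h.le, h⟩⟩
        rw [this]
        exact TopologicalSpace.isOpen_generateFrom_of_mem ⟨x, rfl⟩)
    exact no_utility u hu
  refine ⟨fun X _ h => hcrp_of_chain X h, ⟨h1, h2⟩, ?_⟩
  intro h
  exact h2 (@h (Ordinal.omega 1).ToType (lowerOrderTopology _) h1)

end Pool.Agent.Results.MP_67ce71_gt.NotSRP
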